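import Pool.Agent.H5.EG.Spec2

/-!
# MP_98cfca_co, Q1: limits of the coefficients of `W` (`coef : S_coef`)
-/

set_option autoImplicit false

namespace Pool.Agent.H828.EG.Coef

open Pool.Agent.H5.EG

theorem D_X_pow (r : ℕ) : D ((PowerSeries.X : PowerSeries ℤ) ^ r) = (r : PowerSeries ℤ) * PowerSeries.X ^ r := by
  ext n
  rw [coeff_D, PowerSeries.coeff_X_pow]
  have h : ((r : PowerSeries ℤ) * PowerSeries.X ^ r) = PowerSeries.C (r : ℤ) * PowerSeries.X ^ r := by
    rw [map_natCast]
  rw [h, PowerSeries.coeff_C_mul, PowerSeries.coeff_X_pow]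
  split_ifs with h1
  · rw [h1]
  · simp

theorem DV (r : ℕ) (V : PowerSeries ℤ)
    (h : V * (1 + PowerSeries.X ^ r) = 1 - PowerSeries.X ^ r) :
    (1 - PowerSeries.X ^ (2 * r)) * D V = -(2 * (r : PowerSeries ℤ)) * (PowerSeries.X ^ r * V) := by
  have h1 : D (V * (1 + PowerSeries.X ^ r)) = D (1 - PowerSeries.X ^ r) := by rw [h]
  have h2 : D (1 - (PowerSeries.X : PowerSeries ℤ) ^ r) = - ((r : PowerSeries ℤ) * PowerSeries.X ^ r) := by
    have h3 : D ((1 - (PowerSeries.X : PowerSeries ℤ) ^ r) + PowerSeries.X ^ r) = 0 := by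
      rw [sub_add_cancel, D_one]
    rw [D_add, D_X_pow] at h3
    linear_combination h3
  rw [D_mul, D_add, D_one, D_X_pow, h2] at h1
  have h4 : (PowerSeries.X : PowerSeries ℤ) ^ (2 * r) = PowerSeries.X ^ r * PowerSeries.X ^ r := by
    rw [two_mul, pow_add]
  rw [h4]
  generalize (PowerSeries.X : PowerSeries ℤ) ^ r = Z at *
  linear_combination (1 - Z) * h1 + ((r : PowerSeries ℤ) * Z) * h

theorem DP (r N : ℕ) (V : PowerSeries ℤ)
    (h : V * (1 + PowerSeries.X ^ r) = 1 - PowerSeries.X ^ r) :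
    (1 - PowerSeries.X ^ (2 * r)) * D (V ^ N) =
      -(2 * (r : PowerSeries ℤ) * (N : PowerSeries ℤ)) * (PowerSeries.X ^ r * V ^ N) := by
  induction N with
  | zero => rw [pow_zero, D_one]; simp
  | succ N ih =>
    rw [pow_succ, D_mul]
    have h1 := DV r V h
    push_cast
    linear_combination V * ih + V ^ N * h1

/-- The recurrence for the coefficients of `V ^ N`. -/
theorem rec1 (r N n : ℕ) (V : PowerSeries ℤ)
    (h : V * (1 + PowerSeries.X ^ r) = 1 - PowerSeries.X ^ r) :
    (n : ℤ) * PowerSeries.coeff n (V ^ N) -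
      (if 2 * r ≤ n then ((n - 2 * r : ℕ) : ℤ) * PowerSeries.coeff (n - 2 * r) (V ^ N) else 0) =
      -(2 * (r : ℤ) * (N : ℤ)) * (if r ≤ n then PowerSeries.coeff (n - r) (V ^ N) else 0) := by
  have h1 := DP r N V h
  have h2 : -(2 * (r : PowerSeries ℤ) * (N : PowerSeries ℤ)) * (PowerSeries.X ^ r * V ^ N)
      = PowerSeries.C (-(2 * (r : ℤ) * (N : ℤ))) * (PowerSeries.X ^ r * V ^ N) := by
    congr 1
    simp
  rw [h2] at h1
  have h3 := congrArg (PowerSeries.coeff n) h1
  rw [PowerSeries.coeff_C_mul, PowerSeries.coeff_X_pow_mul', sub_mul, one_mul, map_sub,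
    PowerSeries.coeff_X_pow_mul', coeff_D, coeff_D] at h3
  exact h3

theorem van (r N : ℕ) (V : PowerSeries ℤ) (hr : 1 ≤ r)
    (h : V * (1 + PowerSeries.X ^ r) = 1 - PowerSeries.X ^ r) (n : ℕ) (hn : ¬ r ∣ n) :
    PowerSeries.coeff n (V ^ N) = 0 := by
  induction n using Nat.strong_induction_on with
  | _ n ih =>
    have hn0 : n ≠ 0 := by rintro rfl; exact hn (dvd_zero r)
    have h1 := rec1 r N n V h
    have h2 : (if 2 * r ≤ n then ((n - 2 * r : ℕ) : ℤ) * PowerSeries.coeff (n - 2 * r) (V ^ N)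
        else 0) = 0 := by
      split_ifs with h3
      · rw [ih (n - 2 * r) (by omega), mul_zero]
        intro h4
        apply hn
        have h5 : n = (n - 2 * r) + r * 2 := by omega
        rw [h5]
        exact dvd_add h4 (Dvd.intro _ rfl)
      · rfl
    have h3 : (if r ≤ n then PowerSeries.coeff (n - r) (V ^ N) else 0) = 0 := by
      split_ifs with h3
      · rw [ih (n - r) (by omega)]
        intro h4
        apply hn
        have h5 : n = (n - r) + r * 1 := by omega
        rw [h5]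
        exact dvd_add h4 (Dvd.intro _ rfl)
      · rfl
    rw [h2, h3, sub_zero, mul_zero] at h1
    rcases mul_eq_zero.1 h1 with h4 | h4
    · exact absurd (by exact_mod_cast h4) hn0
    · exact h4

theorem cst (r N : ℕ) (V : PowerSeries ℤ) (hr : 1 ≤ r)
    (h : V * (1 + PowerSeries.X ^ r) = 1 - PowerSeries.X ^ r) :
    PowerSeries.coeff 0 (V ^ N) = 1 := by
  have h1 : PowerSeries.constantCoeff V = 1 := by
    have h2 := congrArg (PowerSeries.constantCoeff) h
    have h3 : PowerSeries.constantCoeff ((PowerSeries.X : PowerSeries ℤ) ^ r) = 0 := by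
      rw [map_pow, PowerSeries.constantCoeff_X, zero_pow (by omega)]
    rw [map_mul, map_add, map_sub, h3, map_one, add_zero, sub_zero, mul_one] at h2
    exact h2
  rw [PowerSeries.coeff_zero_eq_constantCoeff_apply, map_pow, h1, one_pow]

/-- The normalised coefficients. -/
noncomputable def E (lam : ℝ) (r : ℝ) : ℕ → ℝ
  | 0 => 1
  | 1 => -2 * lam
  | l + 2 => (-2 * lam * E lam r (l + 1) + (l : ℝ) * E lam r l / r ^ 2) / ((l : ℝ) + 2)

theorem coeff_eq (r lam : ℕ) (V : PowerSeries ℤ) (hr : 1 ≤ r)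
    (h : V * (1 + PowerSeries.X ^ r) = 1 - PowerSeries.X ^ r) (l : ℕ) :
    ((PowerSeries.coeff (r * l) (V ^ (r * lam)) : ℤ) : ℝ) = (r : ℝ) ^ l * E lam r l := by
  have hr0 : (r : ℝ) ≠ 0 := by positivity
  induction l using Nat.strong_induction_on with
  | _ l ih =>
    match l, ih with
    | 0, _ =>
      rw [mul_zero, cst r _ V hr h, pow_zero, E]; simp
    | 1, ih =>
      have h1 := rec1 r (r * lam) (r * 1) V h
      rw [if_neg (by omega), if_pos (by omega), show r * 1 - r = 0 by omega,
        cst r _ V hr h, sub_zero] at h1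
      simp only [mul_one] at h1 ⊢
      have h2 : (r : ℝ) * ((PowerSeries.coeff r (V ^ (r * lam)) : ℤ) : ℝ) =
          -(2 * (r : ℝ) * ((r * lam : ℕ) : ℝ)) := by
        exact_mod_cast h1
      push_cast at h2
      rw [E, pow_one]
      apply mul_left_cancel₀ hr0
      linear_combination h2
    | l + 2, ih =>
      have h1 := rec1 r (r * lam) (r * (l + 2)) V h
      have e1 : r * (l + 2) - 2 * r = r * l := by
        rw [mul_add, mul_comm r 2]; omega
      have e2 : r * (l + 2) - r = r * (l + 1) := by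
        rw [mul_add, mul_add]; omega
      have e3 : 2 * r ≤ r * (l + 2) := by nlinarith
      rw [if_pos e3, if_pos (by omega), e1, e2] at h1
      have h2 : ((r * (l + 2) : ℕ) : ℝ) *
          ((PowerSeries.coeff (r * (l + 2)) (V ^ (r * lam)) : ℤ) : ℝ) -
          ((r * l : ℕ) : ℝ) * ((PowerSeries.coeff (r * l) (V ^ (r * lam)) : ℤ) : ℝ) =
          -(2 * (r : ℝ) * ((r * lam : ℕ) : ℝ)) *
            ((PowerSeries.coeff (r * (l + 1)) (V ^ (r * lam)) : ℤ) : ℝ) := by
        exact_mod_cast h1
      rw [ih l (by omega), ih (l + 1) (by omega)] at h2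
      push_cast at h2
      have hl : (l : ℝ) + 2 ≠ 0 := by positivity
      have h9 : (r : ℝ) ^ (l + 2) * ((l : ℝ) * E lam r l / (r : ℝ) ^ 2) =
          (r : ℝ) ^ l * ((l : ℝ) * E lam r l) := by
        rw [pow_add]
        field_simp
      rw [E, ← mul_div_assoc, eq_div_iff hl]
      apply mul_left_cancel₀ hr0
      linear_combination h2 - (r : ℝ) * h9

theorem E_tendsto (lam : ℝ) (l : ℕ) :
    Filter.Tendsto (fun r : ℕ => E lam r l) Filter.atTop (nhds ((-2 * lam) ^ l / l.factorial)) := by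
  induction l using Nat.strong_induction_on with
  | _ l ih =>
    match l, ih with
    | 0, _ => simp [E]
    | 1, _ => simp [E]
    | l + 2, ih =>
      have h1 := ih l (by omega)
      have h2 := ih (l + 1) (by omega)
      have h3 : Filter.Tendsto (fun r : ℕ => ((r : ℝ) ^ 2)⁻¹) Filter.atTop (nhds 0) := by
        apply Filter.Tendsto.inv_tendsto_atTop
        exact (Filter.tendsto_pow_atTop (by norm_num)).comp tendsto_natCast_atTop_atTop
      have h4 := ((h2.const_mul (-2 * lam)).add ((h1.const_mul (l : ℝ)).mul h3)).div_const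
        ((l : ℝ) + 2)
      have h5 : (-2 * lam * ((-2 * lam) ^ (l + 1) / ((l + 1).factorial : ℝ)) +
          (l : ℝ) * ((-2 * lam) ^ l / (l.factorial : ℝ)) * 0) / ((l : ℝ) + 2) =
          (-2 * lam) ^ (l + 2) / ((l + 2).factorial : ℝ) := by
        rw [Nat.factorial_succ (l + 1)]
        push_cast
        have hl : (l : ℝ) + 2 ≠ 0 := by positivity
        have hf : ((l + 1).factorial : ℝ) ≠ 0 := by positivity
        have : (l : ℝ) + 1 + 1 ≠ 0 := by positivity
        field_simp
        ring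
      rw [h5] at h4
      refine h4.congr fun r => ?_
      rw [E, div_eq_mul_inv ((l : ℝ) * E lam r l)]

theorem coef : S_coef := by
  refine ⟨?_, ?_⟩
  · intro m r V W hr hW n hn
    obtain ⟨hV, h2⟩ := hW
    have h3 := congrArg (PowerSeries.coeff n) h2
    have h4 : (2 : PowerSeries ℤ) ^ m = PowerSeries.C ((2 : ℤ) ^ m) := by simp
    rw [h4, PowerSeries.coeff_C_mul, map_sum] at h3
    have h5 : ∑ k ∈ Finset.range (m + 1),
        PowerSeries.coeff n ((m.choose k : PowerSeries ℤ) * V ^ (r * (k * (m - k)))) = 0 := by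
      refine Finset.sum_eq_zero fun k _ => ?_
      have h6 : ((m.choose k : ℕ) : PowerSeries ℤ) = PowerSeries.C ((m.choose k : ℕ) : ℤ) := by
        simp
      rw [h6, PowerSeries.coeff_C_mul, van r _ V hr hV n hn, mul_zero]
    rw [h5] at h3
    rcases mul_eq_zero.1 h3 with h6 | h6
    · exact absurd h6 (by positivity)
    · exact h6
  · intro m l ε hε
    have h1 : Filter.Tendsto (fun r : ℕ => (∑ k ∈ Finset.range (m + 1), (m.choose k : ℝ) *
        E ((k * (m - k) : ℕ) : ℝ) r l) / 2 ^ m) Filter.atTop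
        (nhds ((∑ k ∈ Finset.range (m + 1), (m.choose k : ℝ) *
          ((-2 * ((k * (m - k) : ℕ) : ℝ)) ^ l / l.factorial)) / 2 ^ m)) := by
      apply Filter.Tendsto.div_const
      apply tendsto_finsetSum
      intro k _
      exact (E_tendsto _ l).const_mul _
    have h2 : (∑ k ∈ Finset.range (m + 1), (m.choose k : ℝ) *
          ((-2 * ((k * (m - k) : ℕ) : ℝ)) ^ l / l.factorial)) / 2 ^ m = FL m l := by
      rw [FL, mul_comm ((2 : ℝ) ^ m), ← div_div]
      congr 1
      rw [Finset.sum_div]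
      refine Finset.sum_congr rfl fun k hk => ?_
      have hk' : k ≤ m := by
        have := Finset.mem_range.1 hk
        omega
      rw [Nat.cast_mul, Nat.cast_sub hk']
      ring
    rw [h2] at h1
    have h3 := (Metric.tendsto_atTop.1 h1) ε hε
    obtain ⟨N, hN⟩ := h3
    refine ⟨max N 1, fun r hr V W hW => ?_⟩
    have hr1 : 1 ≤ r := le_trans (le_max_right _ _) hr
    have hrN : N ≤ r := le_trans (le_max_left _ _) hr
    have h4 := hN r hrN
    rw [Real.dist_eq] at h4
    have hr0 : (r : ℝ) ≠ 0 := by positivity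
    have h5 : ((PowerSeries.coeff (r * l) W : ℤ) : ℝ) / (r : ℝ) ^ l =
        (∑ k ∈ Finset.range (m + 1), (m.choose k : ℝ) *
        E ((k * (m - k) : ℕ) : ℝ) r l) / 2 ^ m := by
      obtain ⟨hV, h2⟩ := hW
      have h3 := congrArg (PowerSeries.coeff (r * l)) h2
      have h4 : (2 : PowerSeries ℤ) ^ m = PowerSeries.C ((2 : ℤ) ^ m) := by simp
      rw [h4, PowerSeries.coeff_C_mul, map_sum] at h3
      have h6 : ∀ k ∈ Finset.range (m + 1),
          PowerSeries.coeff (r * l) ((m.choose k : PowerSeries ℤ) * V ^ (r * (k * (m - k)))) =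
          (m.choose k : ℤ) * PowerSeries.coeff (r * l) (V ^ (r * (k * (m - k)))) := by
        intro k _
        have h6 : ((m.choose k : ℕ) : PowerSeries ℤ) = PowerSeries.C ((m.choose k : ℕ) : ℤ) := by
          simp
        rw [h6, PowerSeries.coeff_C_mul]
      rw [Finset.sum_congr rfl h6] at h3
      have h7 := congrArg (fun z : ℤ => (z : ℝ)) h3
      simp only [Int.cast_mul, Int.cast_pow, Int.cast_ofNat, Int.cast_sum, Int.cast_natCast] at h7
      have h8 : ∀ k ∈ Finset.range (m + 1), (m.choose k : ℝ) *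
          ((PowerSeries.coeff (r * l) (V ^ (r * (k * (m - k)))) : ℤ) : ℝ) =
          (r : ℝ) ^ l * ((m.choose k : ℝ) * E ((k * (m - k) : ℕ) : ℝ) r l) := by
        intro k _
        rw [coeff_eq r (k * (m - k)) V hr1 hV l]
        ring
      rw [Finset.sum_congr rfl h8, ← Finset.mul_sum] at h7
      rw [div_eq_div_iff (by positivity) (by positivity)]
      linear_combination h7
    rw [h5]
    exact h4.le

end Pool.Agent.H828.EG.Coef
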